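import Mathlib

namespace Pool.Agent.Results.MP_8fbeef_co.DominatingPath

/-- `D` is a dominating set of `G`: every vertex outside `D` has a neighbour in `D`. -/
def IsDom {V : Type} (G : SimpleGraph V) (D : Set V) : Prop :=
  ∀ v, v ∉ D → ∃ u ∈ D, G.Adj u v

/-- The domination number of `G`: the minimum size of a dominating set. -/
noncomputable def gamma {V : Type} (G : SimpleGraph V) : ℕ :=
  sInf {k | ∃ D : Finset V, D.card = k ∧ IsDom G (D : Set V)}

/-- `G` is `k`-(γ,r)-critical: `γ(G) = k`, and `γ(G + uv) < k` for all nonadjacent vertices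
`u ≠ v` at distance at most `r`. -/
def LocalCritical {V : Type} (G : SimpleGraph V) (k r : ℕ) : Prop :=
  gamma G = k ∧ ∀ u v : V, u ≠ v → ¬ G.Adj u v → G.edist u v ≤ (r : ℕ∞) →
    gamma (G ⊔ SimpleGraph.edge u v) < k

lemma exists_dom {V : Type} [Fintype V] (G : SimpleGraph V) :
    ∃ D : Finset V, D.card = gamma G ∧ IsDom G (D : Set V) := by
  have hne : {k | ∃ D : Finset V, D.card = k ∧ IsDom G (D : Set V)}.Nonempty :=
    ⟨(Finset.univ : Finset V).card, Finset.univ, rfl, fun v hv => absurd (by simp) hv⟩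
  exact Nat.sInf_mem hne

lemma gamma_le {V : Type} (G : SimpleGraph V) (D : Finset V) (h : IsDom G (D : Set V)) :
    gamma G ≤ D.card :=
  Nat.sInf_le ⟨D, rfl, h⟩

/-- The main step: a set `D` of at most two vertices, containing `u`, which dominates `G + uv`,
where `w` is a common neighbour of `u` and `v`. -/
lemma step {V : Type} [Fintype V] (G : SimpleGraph V) (hc : G.Connected) (u w v : V)
    (huw : G.Adj u w) (hwv : G.Adj w v) (D : Finset V) (hD : D.card ≤ 2) (huD : u ∈ D)
    (hdom : IsDom (G ⊔ SimpleGraph.edge u v) (D : Set V)) :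
    ∃ (a b : V) (p : G.Walk a b), p.IsPath ∧ IsDom G {x | x ∈ p.support} := by
  classical
  obtain ⟨b, hb⟩ : ∃ b, D ⊆ {u, b} := by
    have h1 : (D.erase u).card ≤ 1 := by
      rw [Finset.card_erase_of_mem huD]; omega
    have : Nonempty V := ⟨u⟩
    rcases Finset.card_le_one_iff_subset_singleton.mp h1 with ⟨b, hb⟩
    refine ⟨b, fun x hx => ?_⟩
    by_cases hxu : x = u
    · simp [hxu]
    · have := hb (Finset.mem_erase.mpr ⟨hxu, hx⟩)
      simp at this
      simp [this]
  obtain ⟨p, hp⟩ := (hc u b).exists_isPath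
  have key : ∀ (a c : V) (q : G.Walk a c), u ∈ q.support → b ∈ q.support → w ∈ q.support →
      IsDom G {x | x ∈ q.support} := by
    intro a c q hu hb' hw x hx
    change x ∉ q.support at hx
    by_cases hxv : x = v
    · exact ⟨w, hw, hxv ▸ hwv⟩
    have hDs : ∀ d ∈ D, d ∈ q.support := by
      intro d hd
      have := hb hd
      simp only [Finset.mem_insert, Finset.mem_singleton] at this
      rcases this with rfl | rfl <;> assumption
    have hxD : x ∉ (D : Set V) := fun h => hx (hDs x h)
    obtain ⟨d, hd, hadj⟩ := hdom x hxD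
    refine ⟨d, hDs d hd, ?_⟩
    rw [SimpleGraph.sup_adj] at hadj
    rcases hadj with h | h
    · exact h
    · rw [SimpleGraph.edge_adj] at h
      rcases h.1 with ⟨_, h2⟩ | ⟨_, h2⟩
      · exact absurd h2 hxv
      · exact absurd (h2 ▸ hu) hx
  by_cases hw : w ∈ p.support
  · exact ⟨u, b, p, hp, key u b p p.start_mem_support p.end_mem_support hw⟩
  · refine ⟨w, b, SimpleGraph.Walk.cons huw.symm p, ?_, ?_⟩
    · exact (SimpleGraph.Walk.cons_isPath_iff huw.symm p).mpr ⟨hp, hw⟩
    · apply key
      · simp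
      · simp
      · simp

/-- Every finite connected `3`-`(γ,2)`-critical graph has a path whose vertices form a dominating
set. -/
theorem result : ∀ (V : Type) [Fintype V] (G : SimpleGraph V), G.Connected →
    LocalCritical G 3 2 →
    ∃ (a b : V) (p : G.Walk a b), p.IsPath ∧ IsDom G {x | x ∈ p.support} := by
  intro V _ G hc hcrit
  classical
  obtain ⟨hg, hcr⟩ := hcrit
  obtain ⟨u, w, v, huw, hwv, huv, hnadj⟩ : ∃ u w v, G.Adj u w ∧ G.Adj w v ∧ u ≠ v ∧
      ¬ G.Adj u v := by
    by_contra hcon
    push Not at hcon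
    have hall : ∀ (a b : V) (p : G.Walk a b), a ≠ b → G.Adj a b := by
      intro a b p
      induction p with
      | nil => intro h; exact absurd rfl h
      | @cons a c b h q ih =>
        intro hab
        by_cases hcb : c = b
        · exact hcb ▸ h
        · exact hcon a c b h (ih hcb) hab
    obtain ⟨x⟩ := hc.nonempty
    have h1 : IsDom G (({x} : Finset V) : Set V) := by
      intro y hy
      simp only [Finset.coe_singleton, Set.mem_singleton_iff] at hy
      obtain ⟨p⟩ := hc x y
      exact ⟨x, by simp, hall x y p (fun h => hy h.symm)⟩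
    have := gamma_le G {x} h1
    simp at this
    omega
  have hdist : G.edist u v ≤ ((2 : ℕ) : ℕ∞) := by
    have := SimpleGraph.edist_le (SimpleGraph.Walk.cons huw (SimpleGraph.Walk.cons hwv SimpleGraph.Walk.nil))
    simpa using this
  have hlt := hcr u v huv hnadj hdist
  obtain ⟨D, hDc, hDd⟩ := exists_dom (G ⊔ SimpleGraph.edge u v)
  have hD2 : D.card ≤ 2 := by omega
  have hnd : ¬ IsDom G (D : Set V) := by
    intro h
    have := gamma_le G D h
    omega
  unfold IsDom at hnd
  push Not at hnd
  obtain ⟨z, hzD, hz⟩ := hnd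
  obtain ⟨d, hd, hadj⟩ := hDd z hzD
  rw [SimpleGraph.sup_adj] at hadj
  rcases hadj with h | h
  · exact absurd h (hz d hd)
  · rw [SimpleGraph.edge_adj] at h
    rcases h.1 with ⟨h1, _⟩ | ⟨h1, _⟩
    · subst h1
      exact step G hc _ w v huw hwv D hD2 hd hDd
    · subst h1
      refine step G hc _ w u hwv.symm huw.symm D hD2 hd ?_
      rwa [SimpleGraph.edge_comm]

end Pool.Agent.Results.MP_8fbeef_co.DominatingPath
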